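import Pool.Agent.helper48.CG.Spec

set_option autoImplicit false

namespace Pool.Agent.helper48.CG

open Equiv Finset Function Pool.Agent.helper48.PP

theorem UP_avoid1 {a n : ℕ} {x : Perm (Fin a)} {w : Perm (Fin n)}
    (f : Fin (a + 1) → Fin n) (hf : IsCopy w (dsum x (1 : Perm (Fin 1))) f)
    (hq : ∀ s, ¬ XB x w (f s) (w (f s))) : False := by
  obtain ⟨H1, -, H3⟩ := isCopy_dsum hf
  exact hq (Fin.natAdd a 0) ⟨_, H1, fun s => H3 s 0⟩

theorem UP_avoid2 {a b n : ℕ} {x : Perm (Fin a)} {y : Perm (Fin b)} {w : Perm (Fin n)}
    (hw : ¬ Contains w (dsum (dsum x (1 : Perm (Fin 1))) y))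
    (f : Fin (1 + b) → Fin n) (hf : IsCopy w (dsum (1 : Perm (Fin 1)) y) f)
    (hq : ∀ s, XB x w (f s) (w (f s))) : False := by
  obtain ⟨H1, H2, H3⟩ := isCopy_dsum hf
  obtain ⟨f', hf', hlt⟩ := hq (Fin.castAdd b 0)
  refine hw ⟨_, isCopy_append (isCopy_append hf' H1 fun s t => ?_) H2 fun s t => ?_⟩
  · have ht : t = 0 := Subsingleton.elim _ _
    subst ht
    exact hlt s
  · induction s using Fin.addCases with
    | left s =>
      rw [Fin.append_left]
      exact ⟨(hlt s).1.trans (H3 0 t).1, (hlt s).2.trans (H3 0 t).2⟩
    | right s =>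
      rw [Fin.append_right]
      exact H3 s t

theorem UP : UP_stmt := by
  intro a b x y n
  classical
  set q := dsum (dsum x (1 : Perm (Fin 1))) y with hq
  set p := dsum x (1 : Perm (Fin 1)) with hp
  set p' := dsum (1 : Perm (Fin 1)) y with hp'
  let S : Perm (Fin n) → Finset (Fin n) := fun w => Finset.univ.filter fun i => ¬ XB x w i (w i)
  let T : Finset (Finset (Fin n) × Finset (Fin n)) :=
    Finset.univ.filter fun t => t.2.card = t.1.card
  have hmaps : ∀ w ∈ (Finset.univ.filter fun w : Perm (Fin n) => ¬ Contains w q),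
      (fun w : Perm (Fin n) => (S w, (S w).image w)) w ∈ T := by
    intro w _
    rw [Finset.mem_filter]
    exact ⟨Finset.mem_univ _, Finset.card_image_of_injective _ w.injective⟩
  have hfib : ∀ t ∈ T, ((Finset.univ.filter fun w : Perm (Fin n) => ¬ Contains w q).filter
      fun w => (S w, (S w).image w) = t).card ≤
        avCount t.1.card p * avCount (n - t.1.card) p' := by
    rintro ⟨S₀, V₀⟩ -
    have hcc : (n - S₀.card) = (S₀ᶜ).card := by
      rw [Finset.card_compl, Fintype.card_fin]
    show _ ≤ avCount S₀.card p * avCount (n - S₀.card) p'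
    rw [hcc]
    unfold avCount
    rw [← Finset.card_product]
    refine Finset.card_le_card_of_injOn (fun w => (patt w S₀, patt w S₀ᶜ)) (fun w hw => ?_) ?_
    · simp only [Finset.coe_filter, Finset.mem_filter, Finset.mem_univ, true_and,
        Set.mem_ofPred_eq, Prod.mk.injEq] at hw
      simp only [Finset.coe_product, Set.mem_prod, Finset.coe_filter, Finset.mem_univ, true_and,
        Set.mem_ofPred_eq]
      refine ⟨fun hc => ?_, fun hc => ?_⟩
      · obtain ⟨f, hf, hf'⟩ := patt_contains hc
        refine UP_avoid1 f hf fun s => ?_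
        have := hf' s
        rw [← hw.2.1] at this
        exact (Finset.mem_filter.mp this).2
      · obtain ⟨f, hf, hf'⟩ := patt_contains hc
        refine UP_avoid2 hw.1 f hf fun s => ?_
        have := hf' s
        rw [← hw.2.1, Finset.mem_compl] at this
        by_contra hcon
        exact this (Finset.mem_filter.mpr ⟨Finset.mem_univ _, hcon⟩)
    · intro w hw w' hw' heq
      simp only [Finset.coe_filter, Finset.mem_filter, Finset.mem_univ, true_and,
        Set.mem_ofPred_eq, Prod.mk.injEq] at hw hw'
      have hV : S₀.image w = S₀.image w' := by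
        have h1 := hw.2.2; have h2 := hw'.2.2
        rw [hw.2.1] at h1; rw [hw'.2.1] at h2
        rw [h1, h2]
      have hcompl : ∀ v : Perm (Fin n), S₀ᶜ.image v = (S₀.image v)ᶜ := by
        intro v
        ext z
        simp only [Finset.mem_image, Finset.mem_compl, not_exists, not_and]
        constructor
        · rintro ⟨u, hu, rfl⟩ u' hu' h
          exact hu (v.injective h ▸ hu')
        · intro h
          exact ⟨v.symm z, fun hz => h _ hz (v.apply_symm_apply z), v.apply_symm_apply z⟩
      have hVc : S₀ᶜ.image w = S₀ᶜ.image w' := by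
        rw [hcompl, hcompl, hV]
      have e := Prod.mk.inj heq
      have h3 := patt_inj hV e.1
      have h4 := patt_inj hVc e.2
      apply Equiv.ext
      intro i
      by_cases hi : i ∈ S₀
      · exact h3 i hi
      · exact h4 i (Finset.mem_compl.mpr hi)
  have hsum : ∑ t ∈ T, (avCount t.1.card p * avCount (n - t.1.card) p') =
      ∑ m ∈ Finset.range (n + 1), n.choose m * n.choose m *
        (avCount m p * avCount (n - m) p') := by
    rw [Finset.sum_filter, ← Finset.univ_product_univ, Finset.sum_product]
    have h1 : ∀ S₁ : Finset (Fin n), (∑ V₁ : Finset (Fin n),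
        if V₁.card = S₁.card then avCount S₁.card p * avCount (n - S₁.card) p' else 0) =
        n.choose S₁.card * (avCount S₁.card p * avCount (n - S₁.card) p') := by
      intro S₁
      rw [← Finset.sum_filter, Finset.sum_const, smul_eq_mul]
      congr 1
      have : (Finset.univ.filter fun V₁ : Finset (Fin n) => V₁.card = S₁.card) =
        Finset.powersetCard S₁.card Finset.univ := by
        ext V; simp [Finset.mem_powersetCard]
      rw [this, Finset.card_powersetCard, Finset.card_univ, Fintype.card_fin]
    simp only [h1]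
    have h2 := Finset.sum_powerset_apply_card (x := (Finset.univ : Finset (Fin n)))
      (fun m => n.choose m * (avCount m p * avCount (n - m) p'))
    rw [Finset.powerset_univ, Finset.card_univ, Fintype.card_fin] at h2
    rw [h2]
    refine Finset.sum_congr rfl fun m _ => ?_
    rw [smul_eq_mul, mul_assoc]
  have h0 : avCount n q = (Finset.univ.filter fun w : Perm (Fin n) => ¬ Contains w q).card := by
    unfold avCount; congr
  rw [h0, Finset.card_eq_sum_card_fiberwise hmaps, ← hsum]
  exact Finset.sum_le_sum hfib

end Pool.Agent.helper48.CG
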